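import Pool.Agent.Q207.PG.Br

/-!
# Amorphous sets with dually Dedekind infinite power set are of projective type

In every model of Zermelo set theory (so in every model of ZF): if `a` is an amorphous set whose
power set is dually Dedekind infinite, then `a` admits a non-degenerate pregeometry.
-/

namespace Pool.Agent.Results.MP_90148f_lc.Projective

open FirstOrder FirstOrder.Language
open Pool.Agent.Helper672.Plain (LSet Zermelo)
open Pool.Agent.H310Cards
open Pool.Agent.H310NAS (IsAmorphous)
open Pool.Agent.Q207.PGDefs

universe u

theorem result (M : Type u) [LSet.Structure M] [Zermelo M] (a p : M) (ha : IsAmorphous a)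
    (hp : IsPow p a) (h : ¬ IsDDF p) : IsProjectiveType a :=
  Pool.Agent.Q207.PG.projective_of_ddi ha hp h

end Pool.Agent.Results.MP_90148f_lc.Projective
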